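import Pool.Agent.H73.CBE.Stmts

/-!
# Board cbe (MP_e1af46_an), row FBD: bounds for the random maps (helper70)
-/

set_option autoImplicit false

open Set Filter Topology

namespace Pool.CBE

namespace FBDaux

lemma inner_le_one {n : ℕ} {ζ z : E n} (h1 : ‖ζ‖ = 1) (h2 : ‖z‖ = 1) :
    ‖(inner ℂ ζ z : ℂ)‖ ≤ 1 := by
  have := norm_inner_le_norm (𝕜 := ℂ) ζ z
  rwa [h1, h2, one_mul] at this

lemma dl_nonneg {n : ℕ} (z w : E n) : 0 ≤ dl z w := norm_nonneg _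

/-- terms of the sum -/
lemma pow_le {n : ℕ} {ζ z : E n} (h1 : ‖ζ‖ = 1) (h2 : ‖z‖ = 1) {d : ℕ} (_hd : 2 ≤ d) :
    ‖(inner ℂ ζ z : ℂ)‖ ^ d ≤ ‖(inner ℂ ζ z : ℂ)‖ ^ (d - 1) :=
  pow_le_pow_of_le_one (norm_nonneg _) (inner_le_one h1 h2) (Nat.sub_le d 1)

lemma one_le {n d : ℕ} (z ζ : E n) : 1 ≤ (1 + √(d : ℝ) * dl z ζ) ^ (4 * n) := by
  have h : 0 ≤ √(d : ℝ) * dl z ζ := mul_nonneg (Real.sqrt_nonneg _) (dl_nonneg _ _)
  exact one_le_pow₀ (by linarith)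

end FBDaux

open FBDaux in
theorem FBD_thm (hG : GSMStmt) (hF : FDRStmt) (hO : ORTStmt) : FBDStmt := by
  intro n hn
  obtain ⟨C₀, hC₀, H⟩ := hG n hn
  have hn0 : (0 : ℝ) ≤ 2 * n := by positivity
  have hnC : 0 ≤ 2 * (n : ℝ) * C₀ := mul_nonneg hn0 hC₀.le
  refine ⟨2 * n * C₀ + 1, by linarith, ?_⟩
  intro d T w hd hS hw
  refine ⟨?_, ?_, ?_⟩
  · intro z hz
    have h1 : ‖fm d T w z‖ ≤ ∑ ζ ∈ T, (2 * n) *
        ((1 + √(d : ℝ) * dl z ζ) ^ (4 * n) * ‖(inner ℂ ζ z : ℂ)‖ ^ (d - 1)) := by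
      unfold fm
      refine (norm_sum_le _ _).trans (Finset.sum_le_sum fun ζ hζ => ?_)
      rw [norm_smul, norm_pow, mul_comm]
      refine mul_le_mul (hw ζ) ?_ (pow_nonneg (norm_nonneg _) _) hn0
      refine (pow_le (hS.1 ζ hζ) hz hd).trans ?_
      exact le_mul_of_one_le_left (pow_nonneg (norm_nonneg _) _) (one_le z ζ)
    rw [← Finset.mul_sum] at h1
    have h2 := mul_le_mul_of_nonneg_left (H d T z hd hS hz) hn0
    linarith
  · intro z v hz hzv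
    obtain ⟨-, -, hder⟩ := hF n d T w (by omega)
    rw [hder z v]
    have hd0 : (0 : ℝ) ≤ d := Nat.cast_nonneg d
    have hsq : √(d : ℝ) * √(d : ℝ) = d := Real.mul_self_sqrt hd0
    have h1 : ‖∑ ζ ∈ T, ((d : ℂ) * (inner ℂ ζ z : ℂ) ^ (d - 1) * (inner ℂ ζ v : ℂ)) • w ζ‖ ≤
        ∑ ζ ∈ T, (2 * n * (√(d : ℝ) * ‖v‖)) *
          ((1 + √(d : ℝ) * dl z ζ) ^ (4 * n) * ‖(inner ℂ ζ z : ℂ)‖ ^ (d - 1)) := by
      refine (norm_sum_le _ _).trans (Finset.sum_le_sum fun ζ hζ => ?_)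
      rw [norm_smul, norm_mul, norm_mul, norm_pow, Complex.norm_natCast]
      have ha := hO n z ζ v hz hzv
      have hb := hw ζ
      have hc : √(d : ℝ) * dl z ζ ≤ (1 + √(d : ℝ) * dl z ζ) ^ (4 * n) := by
        have h0 : 0 ≤ √(d : ℝ) * dl z ζ := mul_nonneg (Real.sqrt_nonneg _) (dl_nonneg _ _)
        have h3 : (1 + √(d : ℝ) * dl z ζ) ≤ (1 + √(d : ℝ) * dl z ζ) ^ (4 * n) :=
          le_self_pow₀ (by linarith) (by omega)
        linarith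
      set t := ‖(inner ℂ ζ z : ℂ)‖ ^ (d - 1) with ht
      have ht0 : 0 ≤ t := pow_nonneg (norm_nonneg _) _
      calc (d : ℝ) * t * ‖(inner ℂ ζ v : ℂ)‖ * ‖w ζ‖
          ≤ (d : ℝ) * t * (dl z ζ * ‖v‖) * (2 * n) := by
            refine mul_le_mul (mul_le_mul_of_nonneg_left ha (mul_nonneg hd0 ht0)) hb
              (norm_nonneg _) ?_
            exact mul_nonneg (mul_nonneg hd0 ht0) (mul_nonneg (dl_nonneg _ _) (norm_nonneg _))
        _ = (2 * n * (√(d : ℝ) * ‖v‖)) * ((√(d : ℝ) * dl z ζ) * t) := by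
            rw [← hsq, Real.sqrt_mul_self (Real.sqrt_nonneg _)]
            ring
        _ ≤ _ := by
            refine mul_le_mul_of_nonneg_left (mul_le_mul_of_nonneg_right hc ht0) ?_
            positivity
    rw [← Finset.mul_sum] at h1
    have h2 : (2 * n * (√(d : ℝ) * ‖v‖)) * ∑ ζ ∈ T, ((1 + √(d : ℝ) * dl z ζ) ^ (4 * n) *
        ‖(inner ℂ ζ z : ℂ)‖ ^ (d - 1)) ≤ (2 * n * (√(d : ℝ) * ‖v‖)) * C₀ :=
      mul_le_mul_of_nonneg_left (H d T z hd hS hz) (by positivity)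
    have h3 : 0 ≤ √(d : ℝ) * ‖v‖ := by positivity
    nlinarith
  · intro K z hK hz
    classical
    have hK0 : (0 : ℝ) < K := by exact_mod_cast hK
    have hd0 : (0 : ℝ) < √(d : ℝ) := Real.sqrt_pos.2 (by exact_mod_cast (by omega : 0 < d))
    have hsub : near T z (K / √(d : ℝ)) ⊆ T := by
      unfold near
      exact Finset.filter_subset _ _
    have h0 : fm d T w z - fm d (near T z (K / √(d : ℝ))) w z =
        ∑ ζ ∈ T \ near T z (K / √(d : ℝ)), (inner ℂ ζ z : ℂ) ^ d • w ζ := by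
      unfold fm
      rw [← Finset.sum_sdiff hsub, add_sub_cancel_right]
    have hP : (0 : ℝ) < (K : ℝ) ^ (4 * n) := pow_pos hK0 _
    have h1 : ‖∑ ζ ∈ T \ near T z (K / √(d : ℝ)), (inner ℂ ζ z : ℂ) ^ d • w ζ‖ ≤
        ∑ ζ ∈ T \ near T z (K / √(d : ℝ)), (2 * n / (K : ℝ) ^ (4 * n)) *
          ((1 + √(d : ℝ) * dl z ζ) ^ (4 * n) * ‖(inner ℂ ζ z : ℂ)‖ ^ (d - 1)) := by
      refine (norm_sum_le _ _).trans (Finset.sum_le_sum fun ζ hζ => ?_)
      rw [Finset.mem_sdiff] at hζ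
      obtain ⟨hζT, hζn⟩ := hζ
      have hgt : K / √(d : ℝ) < dl z ζ := by
        by_contra hcon
        apply hζn
        unfold near
        rw [Finset.mem_filter]
        exact ⟨hζT, not_lt.1 hcon⟩
      have hgt' : (K : ℝ) ≤ 1 + √(d : ℝ) * dl z ζ := by
        rw [div_lt_iff₀ hd0] at hgt
        nlinarith
      have hpw : (K : ℝ) ^ (4 * n) ≤ (1 + √(d : ℝ) * dl z ζ) ^ (4 * n) :=
        pow_le_pow_left₀ hK0.le hgt' _
      rw [norm_smul, norm_pow]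
      set t := ‖(inner ℂ ζ z : ℂ)‖ ^ (d - 1) with ht
      have ht0 : 0 ≤ t := pow_nonneg (norm_nonneg _) _
      calc ‖(inner ℂ ζ z : ℂ)‖ ^ d * ‖w ζ‖ ≤ t * (2 * n) :=
            mul_le_mul (pow_le (hS.1 ζ hζT) hz hd) (hw ζ) (norm_nonneg _) ht0
        _ = (2 * n / (K : ℝ) ^ (4 * n)) * ((K : ℝ) ^ (4 * n) * t) := by
            field_simp
        _ ≤ _ := by
            refine mul_le_mul_of_nonneg_left (mul_le_mul_of_nonneg_right hpw ht0) ?_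
            positivity
    rw [← Finset.mul_sum] at h1
    have h2 : ∑ ζ ∈ T \ near T z (K / √(d : ℝ)), ((1 + √(d : ℝ) * dl z ζ) ^ (4 * n) *
        ‖(inner ℂ ζ z : ℂ)‖ ^ (d - 1)) ≤ C₀ := by
      refine (Finset.sum_le_sum_of_subset_of_nonneg Finset.sdiff_subset ?_).trans (H d T z hd hS hz)
      intro ζ _ _
      exact mul_nonneg (zero_le_one.trans (one_le z ζ)) (pow_nonneg (norm_nonneg _) _)
    rw [h0]
    refine h1.trans ?_
    have h3 : (2 * n / (K : ℝ) ^ (4 * n)) * ∑ ζ ∈ T \ near T z (K / √(d : ℝ)),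
        ((1 + √(d : ℝ) * dl z ζ) ^ (4 * n) * ‖(inner ℂ ζ z : ℂ)‖ ^ (d - 1)) ≤
        (2 * n / (K : ℝ) ^ (4 * n)) * C₀ :=
      mul_le_mul_of_nonneg_left h2 (by positivity)
    refine h3.trans ?_
    rw [div_mul_eq_mul_div]
    apply div_le_div_of_nonneg_right _ hP.le
    linarith

end Pool.CBE
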